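import Mathlib

/-!
# Thresholds (project SM of helper740)

If `f(n)` is asymptotic to `n / (2 log n)` then the least `N` such that `f(n) ≥ k` for all `n > N` is
asymptotic to `2 k log k`.
-/

set_option autoImplicit false

open Filter
open scoped Topology

namespace Pool.Agent.N886.SM

lemma log_top : Tendsto (fun k : ℕ => Real.log (k : ℝ)) atTop atTop :=
  Real.tendsto_log_atTop.comp tendsto_natCast_atTop_atTop

lemma log_lim {c : ℝ} (hc : 0 < c) :
    Tendsto (fun k : ℕ => Real.log (c * (2 * k * Real.log k)) / Real.log k) atTop (𝓝 1) := by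
  have h1 : Tendsto (fun k : ℕ => Real.log (2 * c) / Real.log k) atTop (𝓝 0) :=
    tendsto_const_nhds.div_atTop log_top
  have h2 : Tendsto (fun k : ℕ => Real.log (Real.log k) / Real.log k) atTop (𝓝 0) := by
    have h3 := Real.isLittleO_log_id_atTop.tendsto_div_nhds_zero
    exact h3.comp log_top
  have h3 : Tendsto (fun k : ℕ => Real.log (2 * c) / Real.log k + 1 + Real.log (Real.log k) / Real.log k)
      atTop (𝓝 (0 + 1 + 0)) := (h1.add tendsto_const_nhds).add h2
  rw [zero_add, add_zero] at h3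
  refine h3.congr' ?_
  filter_upwards [log_top.eventually_gt_atTop 0, eventually_gt_atTop 0] with k hk hk0
  have hk1 : (0 : ℝ) < k := by exact_mod_cast hk0
  have e : c * (2 * k * Real.log k) = 2 * c * k * Real.log k := by ring
  rw [e, Real.log_mul (by positivity) hk.ne', Real.log_mul (by positivity) hk1.ne']
  field_simp

lemma base_top {c : ℝ} (hc : 0 < c) :
    Tendsto (fun k : ℕ => c * (2 * k * Real.log k)) atTop atTop := by
  have h1 : Tendsto (fun k : ℕ => (k : ℝ) * Real.log k) atTop atTop :=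
    tendsto_natCast_atTop_atTop.atTop_mul_atTop₀ log_top
  have h2 := h1.const_mul_atTop (show 0 < 2 * c by positivity)
  refine h2.congr fun k => ?_
  ring

theorem thr {f : ℕ → ℕ} (hf : Tendsto (fun n : ℕ => (f n : ℝ) * (2 * Real.log n) / n) atTop (𝓝 1)) :
    (∀ k : ℕ, ∃ N : ℕ, ∀ n, N < n → k ≤ f n) ∧
    Tendsto (fun k : ℕ => ((sInf {N : ℕ | ∀ n, N < n → k ≤ f n} : ℕ) : ℝ) / (2 * k * Real.log k))
      atTop (𝓝 1) := by
  -- the upper part
  have up : ∀ e : ℝ, 0 < e → ∀ᶠ k : ℕ in atTop, ∀ n : ℕ, (1 + e) * (2 * k * Real.log k) ≤ n → k ≤ f n := by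
    intro e he
    obtain ⟨δ, hδ0, hδ1⟩ : ∃ δ : ℝ, 0 < δ ∧ 1 < (1 - δ) * (1 + e) := by
      refine ⟨e / (2 * (1 + e)), by positivity, ?_⟩
      field_simp
      ring_nf
      nlinarith
    have hδ2 : 0 < 1 - δ := by
      by_contra hcon
      push Not at hcon
      nlinarith
    have h1 : ∀ᶠ n : ℕ in atTop, 1 - δ < (f n : ℝ) * (2 * Real.log n) / n :=
      hf.eventually_const_lt (by linarith)
    obtain ⟨n₀, hn₀⟩ := eventually_atTop.1 h1
    have h2 := (log_lim (show 0 < 1 + e by linarith)).eventually_lt_const hδ1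
    filter_upwards [h2, log_top.eventually_gt_atTop 0, (base_top (show 0 < 1 + e by linarith)).eventually_ge_atTop
      (max (n₀ : ℝ) (Real.exp 1)), eventually_gt_atTop 0] with k hk1 hk2 hk3 hk4 n hn
    have hk0 : (0 : ℝ) < k := by exact_mod_cast hk4
    obtain ⟨x, hx⟩ : ∃ x, x = (1 + e) * (2 * k * Real.log k) := ⟨_, rfl⟩
    rw [← hx] at hk1 hk3 hn
    have hx1 : Real.exp 1 ≤ x := (le_max_right _ _).trans hk3
    have hx0 : 0 < x := lt_of_lt_of_le (Real.exp_pos 1) hx1
    have hn1 : Real.exp 1 ≤ (n : ℝ) := hx1.trans hn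
    have hn0 : (0 : ℝ) < n := lt_of_lt_of_le (Real.exp_pos 1) hn1
    have hn2 : n₀ ≤ n := by
      have : (n₀ : ℝ) ≤ n := ((le_max_left _ _).trans hk3).trans hn
      exact_mod_cast this
    have h3 := hn₀ n hn2
    have h4 : Real.log n / n ≤ Real.log x / x := Real.log_div_self_antitoneOn hx1 hn1 hn
    have hl : 0 < Real.log (n : ℝ) := by
      have h5 := (Real.le_log_iff_exp_le hn0).2 hn1
      linarith
    have hlx : 0 < Real.log x := by
      have h5 := (Real.le_log_iff_exp_le hx0).2 hx1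
      linarith
    have h5 : Real.log x < (1 - δ) * (1 + e) * Real.log k := by
      rwa [div_lt_iff₀ hk2] at hk1
    have h6 : (k : ℝ) < f n := by
      have h7 : 1 - δ < (f n : ℝ) * (2 * (Real.log x / x)) := by
        calc 1 - δ < (f n : ℝ) * (2 * Real.log n) / n := h3
          _ = (f n : ℝ) * (2 * (Real.log n / n)) := by ring
          _ ≤ _ := by gcongr
      have h8 : (1 - δ) * x < (f n : ℝ) * (2 * Real.log x) := by
        have h9 : (f n : ℝ) * (2 * (Real.log x / x)) = (f n : ℝ) * (2 * Real.log x) / x := by ring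
        rw [h9, lt_div_iff₀ hx0] at h7
        exact h7
      have h10 : (k : ℝ) * (2 * Real.log x) < (f n : ℝ) * (2 * Real.log x) := by
        calc (k : ℝ) * (2 * Real.log x) < k * (2 * ((1 - δ) * (1 + e) * Real.log k)) := by gcongr
          _ = (1 - δ) * x := by rw [hx]; ring
          _ < _ := h8
      exact lt_of_mul_lt_mul_right h10 (by positivity)
    exact_mod_cast h6.le
  -- the lower part
  have low : ∀ e : ℝ, 0 < e → e < 1 → ∀ᶠ k : ℕ in atTop, f ⌊(1 - e) * (2 * k * Real.log k)⌋₊ < k := by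
    intro e he he1
    obtain ⟨δ, hδ0, hδ1⟩ : ∃ δ : ℝ, 0 < δ ∧ (1 + δ) * (1 - e) < 1 := by
      refine ⟨e, he, by nlinarith⟩
    have h1 : ∀ᶠ n : ℕ in atTop, (f n : ℝ) * (2 * Real.log n) / n < 1 + δ :=
      hf.eventually_lt_const (by linarith)
    have hfl : Tendsto (fun k : ℕ => ⌊(1 - e) * (2 * k * Real.log k)⌋₊) atTop atTop :=
      tendsto_nat_floor_atTop.comp (base_top (show 0 < 1 - e by linarith))
    have h2 := (log_lim (show 0 < 1 - e by linarith)).eventually_const_lt hδ1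
    filter_upwards [h2, log_top.eventually_gt_atTop 0, hfl.eventually h1, hfl.eventually_ge_atTop 3,
      eventually_gt_atTop 0] with k hk1 hk2 hk3 hk4 hk5
    have hk0 : (0 : ℝ) < k := by exact_mod_cast hk5
    obtain ⟨x, hx⟩ : ∃ x, x = (1 - e) * (2 * k * Real.log k) := ⟨_, rfl⟩
    rw [← hx] at hk1 hk3 hk4 ⊢
    obtain ⟨n, hn⟩ : ∃ n : ℕ, n = ⌊x⌋₊ := ⟨_, rfl⟩
    rw [← hn] at hk3 hk4 ⊢
    have hn3 : (3 : ℝ) ≤ n := by exact_mod_cast hk4
    have he3 : Real.exp 1 ≤ (n : ℝ) := by linarith [Real.exp_one_lt_d9]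
    have hx0 : 0 ≤ x := by
      rw [hx]
      have : 0 < 1 - e := by linarith
      positivity
    have hnx : (n : ℝ) ≤ x := by rw [hn]; exact Nat.floor_le hx0
    have h4 : Real.log x / x ≤ Real.log n / n := Real.log_div_self_antitoneOn he3 (he3.trans hnx) hnx
    have hx1 : 0 < x := by linarith
    have hn0 : (0 : ℝ) < n := by linarith
    have hlx : 0 < Real.log x := Real.log_pos (by linarith)
    have h5 : (1 + δ) * (1 - e) * Real.log k < Real.log x := by
      rwa [lt_div_iff₀ hk2] at hk1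
    have h6 : (f n : ℝ) < k := by
      have h7 : (f n : ℝ) * (2 * (Real.log x / x)) < 1 + δ := by
        calc (f n : ℝ) * (2 * (Real.log x / x)) ≤ (f n : ℝ) * (2 * (Real.log n / n)) := by gcongr
          _ = (f n : ℝ) * (2 * Real.log n) / n := by ring
          _ < _ := hk3
      have h8 : (f n : ℝ) * (2 * Real.log x) < (1 + δ) * x := by
        have h9 : (f n : ℝ) * (2 * (Real.log x / x)) = (f n : ℝ) * (2 * Real.log x) / x := by ring
        rw [h9, div_lt_iff₀ hx1] at h7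
        exact h7
      have h10 : (f n : ℝ) * (2 * Real.log x) < (k : ℝ) * (2 * Real.log x) := by
        calc (f n : ℝ) * (2 * Real.log x) < (1 + δ) * x := h8
          _ = k * (2 * ((1 + δ) * (1 - e) * Real.log k)) := by rw [hx]; ring
          _ < k * (2 * Real.log x) := by gcongr
      exact lt_of_mul_lt_mul_right h10 (by positivity)
    exact_mod_cast h6
  -- existence of the thresholds
  have hex : ∀ k : ℕ, ∃ N : ℕ, ∀ n, N < n → k ≤ f n := by
    intro k
    obtain ⟨k', hk'1, hk'2⟩ := ((up 1 one_pos).and (eventually_ge_atTop k)).exists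
    refine ⟨⌈(1 + 1) * (2 * (k' : ℝ) * Real.log k')⌉₊, fun n hn => hk'2.trans (hk'1 n ?_)⟩
    have h1 : (⌈(1 + 1) * (2 * (k' : ℝ) * Real.log k')⌉₊ : ℝ) ≤ n := by exact_mod_cast hn.le
    exact (Nat.le_ceil _).trans h1
  refine ⟨hex, ?_⟩
  have hne : ∀ k : ℕ, {N : ℕ | ∀ n, N < n → k ≤ f n}.Nonempty := fun k => hex k
  rw [Metric.tendsto_atTop']
  intro ε hε
  obtain ⟨e, he0, he1, heε⟩ : ∃ e : ℝ, 0 < e ∧ e < 1 ∧ e < ε := by
    refine ⟨min (1 / 2) (ε / 2), by positivity, ?_, ?_⟩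
    · have := min_le_left (1 / 2 : ℝ) (ε / 2)
      linarith
    · have := min_le_right (1 / 2 : ℝ) (ε / 2)
      linarith
  have hone : ∀ᶠ k : ℕ in atTop, 1 / (ε - e) < 1 * (2 * k * Real.log k) :=
    (base_top one_pos).eventually_gt_atTop _
  have hall := ((up e he0).and (low e he0 he1)).and (hone.and ((base_top one_pos).eventually_gt_atTop 0))
  obtain ⟨k₀, hk₀⟩ := eventually_atTop.1 hall
  refine ⟨k₀, fun k hk => ?_⟩
  obtain ⟨⟨h1, h2⟩, h3, h4⟩ := hk₀ k hk.le
  rw [one_mul] at h3 h4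
  obtain ⟨g, hg⟩ : ∃ g, g = 2 * (k : ℝ) * Real.log k := ⟨_, rfl⟩
  rw [← hg] at h1 h2 h3 h4 ⊢
  set M := sInf {N : ℕ | ∀ n, N < n → k ≤ f n} with hM
  have hMmem : ∀ n, M < n → k ≤ f n := Nat.sInf_mem (hne k)
  have hup : M ≤ ⌈(1 + e) * g⌉₊ := by
    refine Nat.sInf_le fun n hn => h1 n ?_
    have h5 : (⌈(1 + e) * g⌉₊ : ℝ) ≤ n := by exact_mod_cast hn.le
    exact (Nat.le_ceil _).trans h5
  have hlow : ⌊(1 - e) * g⌋₊ ≤ M := by
    by_contra hcon
    push Not at hcon
    have := hMmem _ hcon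
    omega
  have hup' : (M : ℝ) < (1 + e) * g + 1 := by
    have h5 : (M : ℝ) ≤ ⌈(1 + e) * g⌉₊ := by exact_mod_cast hup
    exact lt_of_le_of_lt h5 (Nat.ceil_lt_add_one (by positivity))
  have hlow' : (1 - e) * g - 1 < M := by
    have h5 : (⌊(1 - e) * g⌋₊ : ℝ) ≤ M := by exact_mod_cast hlow
    have h6 := Nat.lt_floor_add_one ((1 - e) * g)
    linarith
  have h7 : 1 < (ε - e) * g := by
    rwa [div_lt_iff₀ (by linarith), mul_comm] at h3
  rw [Real.dist_eq, abs_lt]
  constructor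
  · rw [lt_sub_iff_add_lt, lt_div_iff₀ h4]
    nlinarith
  · rw [sub_lt_iff_lt_add, div_lt_iff₀ h4]
    nlinarith

end Pool.Agent.N886.SM
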