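import Mathlib
import Pool.Agent.N740.HK.Shk
import Pool.Agent.N740.HK.Rx
import Pool.Agent.N886.SM.Thr

/-!
# Differences of powers of consecutive members (project SM of helper740)
-/

set_option autoImplicit false

open Filter Set
open scoped Topology

namespace Pool.Agent.N886.SM

open Pool.Agent.N740.HK Pool.Agent.R528.RM

variable {S : Set ℕ}

/-- the logarithm of the member number `n`, squared -/
noncomputable def L2 (S : Set ℕ) (n : ℕ) : ℝ := Real.log (pn S n) ^ 2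

/-- the normalised gap -/
noncomputable def YY (S : Set ℕ) (n : ℕ) : ℝ := ((pn S (n + 1) : ℝ) - pn S n) / L2 S n

/-- the normalised difference of the powers -/
noncomputable def XX (S : Set ℕ) (θ : ℝ) (n : ℕ) : ℝ :=
  (pn S n : ℝ) ^ (1 - θ) * ((pn S (n + 1) : ℝ) ^ θ - (pn S n : ℝ) ^ θ) / L2 S n

lemma pn_top (hS : S.Infinite) : Tendsto (fun n => (pn S n : ℝ)) atTop atTop :=
  tendsto_natCast_atTop_atTop.comp (tendsto_nth hS)

lemma L2_top (hS : S.Infinite) : Tendsto (L2 S) atTop atTop := by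
  have h1 : Tendsto (fun n => Real.log (pn S n : ℝ)) atTop atTop := Real.tendsto_log_atTop.comp (pn_top hS)
  exact (tendsto_pow_atTop (by norm_num)).comp h1

lemma Y_pos (hS : S.Infinite) (n : ℕ) : 0 ≤ YY S n := by
  unfold YY L2
  have h1 : pn S n ≤ pn S (n + 1) := (nth_mono hS).monotone (Nat.le_succ n)
  have h2 : (pn S n : ℝ) ≤ pn S (n + 1) := by exact_mod_cast h1
  exact div_nonneg (by linarith) (sq_nonneg _)

lemma up1 (hS : S.Infinite) (hup : Up S) {e : ℝ} (he : 0 < e) : ∀ᶠ n in atTop, YY S n ≤ 1 + e := by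
  have h1 := (tendsto_nth hS).eventually (hup (1 + e) (by linarith))
  filter_upwards [h1, (L2_top hS).eventually_gt_atTop 0] with n hn hL
  obtain ⟨r, hr1, hr2, hr3⟩ := hn
  have h2 : pn S (n + 1) ≤ pn S n + r := next_le hS (by omega) hr3 (by
    rw [Nat.add_sub_cancel]
    omega)
  have h3 : (pn S (n + 1) : ℝ) ≤ pn S n + r := by exact_mod_cast h2
  unfold YY
  rw [div_le_iff₀ hL]
  unfold L2
  linarith

lemma log2pow (i : ℕ) : Real.log ((2 : ℝ) ^ i) = i * Real.log 2 := by rw [Real.log_pow]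

lemma scale_top : Tendsto (fun i : ℕ => Real.log ((2 : ℝ) ^ i) ^ 2) atTop atTop := by
  have h1 : Tendsto (fun i : ℕ => Real.log ((2 : ℝ) ^ i)) atTop atTop := by
    simp only [log2pow]
    exact tendsto_natCast_atTop_atTop.atTop_mul_const (Real.log_pos (by norm_num))
  exact (tendsto_pow_atTop (by norm_num)).comp h1

lemma gi_lim {c : ℝ} (hc : 0 ≤ c) :
    Tendsto (fun i : ℕ => ((max 1 ⌊c * Real.log ((2 : ℝ) ^ i) ^ 2⌋₊ : ℕ) : ℝ) / Real.log ((2 : ℝ) ^ i) ^ 2)
      atTop (𝓝 c) := by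
  have h1 : Tendsto (fun i : ℕ => (⌊c * Real.log ((2 : ℝ) ^ i) ^ 2⌋₊ : ℝ) / Real.log ((2 : ℝ) ^ i) ^ 2)
      atTop (𝓝 c) := (tendsto_nat_floor_mul_div_atTop hc).comp scale_top
  have h2 : Tendsto (fun i : ℕ => (1 : ℝ) / Real.log ((2 : ℝ) ^ i) ^ 2) atTop (𝓝 0) :=
    tendsto_const_nhds.div_atTop scale_top
  have h3 := h2.max h1
  rw [max_eq_right hc] at h3
  refine h3.congr fun i => ?_
  push_cast
  rw [max_div_div_right (sq_nonneg _)]

lemma ratio_lim : Tendsto (fun i : ℕ => Real.log ((2 : ℝ) ^ i) ^ 2 / Real.log ((2 : ℝ) ^ (i + 1)) ^ 2) atTop (𝓝 1) := by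
  have h1 : Tendsto (fun i : ℕ => (i : ℝ) / ((i : ℝ) + 1)) atTop (𝓝 1) := tendsto_natCast_div_add_atTop 1
  have h2 := h1.pow 2
  rw [one_pow] at h2
  refine h2.congr fun i => ?_
  have hl : Real.log 2 ≠ 0 := (Real.log_pos (by norm_num)).ne'
  rw [log2pow, log2pow]
  push_cast
  rw [div_pow, mul_pow, mul_pow, mul_div_mul_right _ _ (pow_ne_zero 2 hl)]

lemma low1 (hS : S.Infinite) (hlow : Low S) {c : ℝ} (hc : 0 ≤ c) (hc1 : c < 1) {e : ℝ} (he : 0 < e) :
    ∃ᶠ n in atTop, |YY S n - c| < e := by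
  rw [frequently_atTop]
  intro N
  have h1 := hlow ((1 - c) / 2) (by linarith) (by linarith)
  have h2 := gi_lim hc
  have h3 := h2.mul ratio_lim
  rw [mul_one] at h3
  have h4 : ∀ᶠ i : ℕ in atTop, ((max 1 ⌊c * Real.log ((2 : ℝ) ^ i) ^ 2⌋₊ : ℕ) : ℝ) / Real.log ((2 : ℝ) ^ i) ^ 2 <
      min (c + e) ((1 + c) / 2) := h2.eventually_lt_const (lt_min (by linarith) (by linarith))
  have h5 := h3.eventually_const_lt (show c - e < c by linarith)
  have h6 : ∀ᶠ i : ℕ in atTop, (pn S N : ℝ) < (2 : ℝ) ^ i :=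
    (tendsto_pow_atTop_atTop_of_one_lt (by norm_num)).eventually_gt_atTop _
  obtain ⟨i, i1, i2, i3, i4, i5⟩ := (h1.and (h4.and (h5.and (h6.and (scale_top.eventually_gt_atTop 0))))).exists
  obtain ⟨g, hg⟩ : ∃ g : ℕ, g = max 1 ⌊c * Real.log ((2 : ℝ) ^ i) ^ 2⌋₊ := ⟨_, rfl⟩
  rw [← hg] at i2 i3
  have hg1 : 1 ≤ g := by rw [hg]; exact le_max_left _ _
  have i2' : (g : ℝ) / Real.log ((2 : ℝ) ^ i) ^ 2 < (1 + c) / 2 := lt_of_lt_of_le i2 (min_le_right _ _)
  obtain ⟨P, p1, p2, p3, p4, p5⟩ := i1 g hg1 (by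
    rw [div_lt_iff₀ i5] at i2'
    have e1 : 1 - (1 - c) / 2 = (1 + c) / 2 := by ring
    rw [e1]
    exact i2'.le)
  obtain ⟨n, hn⟩ := exists_nth p3
  have q1 : pn S (n + 1) ≤ P + g := next_le hS (by omega) p5 (by
    rw [Nat.add_sub_cancel, hn]
    omega)
  have q2 : P < pn S (n + 1) := by
    rw [← hn]
    exact nth_mono hS (Nat.lt_succ_self n)
  have q3 : pn S (n + 1) = P + g := by
    by_contra hne
    have q4 := p4 (pn S (n + 1) - P) (by omega) (by omega)
    rw [show P + (pn S (n + 1) - P) = pn S (n + 1) by omega] at q4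
    exact q4 (nth_mem hS _)
  refine ⟨n, ?_, ?_⟩
  · by_contra hcon
    push Not at hcon
    have q4 : pn S n ≤ pn S N := (nth_mono hS).monotone hcon.le
    rw [hn] at q4
    have q5 : (P : ℝ) ≤ pn S N := by exact_mod_cast q4
    have q6 : ((2 : ℝ) ^ i) < P := by exact_mod_cast p1
    linarith
  · have e1 : YY S n = g / Real.log P ^ 2 := by
      unfold YY L2
      rw [q3, hn]
      push_cast
      ring
    rw [e1]
    have q6 : ((2 : ℝ) ^ i) < P := by exact_mod_cast p1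
    have q7 : (P : ℝ) ≤ (2 : ℝ) ^ (i + 1) := by
      have : P ≤ 2 ^ (i + 1) := by omega
      exact_mod_cast this
    have h2i : (0 : ℝ) < 2 ^ i := by positivity
    have l0 : 0 ≤ Real.log ((2 : ℝ) ^ i) := Real.log_nonneg (one_le_pow₀ (by norm_num))
    have l0' : 0 < Real.log ((2 : ℝ) ^ i) := by
      rcases l0.lt_or_eq with h | h
      · exact h
      · rw [← h] at i5
        norm_num at i5
    have l1 : Real.log ((2 : ℝ) ^ i) ≤ Real.log P := Real.log_le_log h2i q6.le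
    have l2 : Real.log (P : ℝ) ≤ Real.log ((2 : ℝ) ^ (i + 1)) := Real.log_le_log (by linarith) q7
    have l3 : Real.log ((2 : ℝ) ^ i) ^ 2 ≤ Real.log P ^ 2 := by gcongr
    have l4 : Real.log (P : ℝ) ^ 2 ≤ Real.log ((2 : ℝ) ^ (i + 1)) ^ 2 := by
      have : 0 ≤ Real.log (P : ℝ) := l0.trans l1
      gcongr
    have hlP : 0 < Real.log (P : ℝ) := lt_of_lt_of_le l0' l1
    have hg0 : (0 : ℝ) ≤ g := Nat.cast_nonneg g
    rw [abs_lt]
    constructor
    · have k1 : (g : ℝ) / Real.log ((2 : ℝ) ^ (i + 1)) ^ 2 ≤ g / Real.log P ^ 2 := by gcongr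
      have k2 : (g : ℝ) / Real.log ((2 : ℝ) ^ i) ^ 2 * (Real.log ((2 : ℝ) ^ i) ^ 2 / Real.log ((2 : ℝ) ^ (i + 1)) ^ 2) =
          (g : ℝ) / Real.log ((2 : ℝ) ^ (i + 1)) ^ 2 := by
        have hne : Real.log ((2 : ℝ) ^ i) ^ 2 ≠ 0 := by positivity
        field_simp
      rw [k2] at i3
      linarith
    · have k1 : (g : ℝ) / Real.log P ^ 2 ≤ g / Real.log ((2 : ℝ) ^ i) ^ 2 := by gcongr
      have k2 := lt_of_lt_of_le i2 (min_le_left _ _)
      linarith

lemma slope (θ : ℝ) : Tendsto (fun t : ℝ => ((1 + t) ^ θ - 1) / t) (𝓝[>] 0) (𝓝 θ) := by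
  have h1 : HasDerivAt (fun t : ℝ => (1 + t) ^ θ) θ 0 := by
    have h2 : HasDerivAt (fun t : ℝ => 1 + t) 1 0 := (hasDerivAt_id (0 : ℝ)).const_add 1
    have h3 := h2.rpow_const (p := θ) (Or.inl (by norm_num))
    simpa using h3
  have h2 := h1.tendsto_slope_zero_right
  refine h2.congr fun t => ?_
  simp only [zero_add, add_zero, Real.one_rpow, smul_eq_mul]
  rw [div_eq_inv_mul]

lemma t_lim (hS : S.Infinite) (hup : Up S) :
    Tendsto (fun n => ((pn S (n + 1) : ℝ) - pn S n) / pn S n) atTop (𝓝 0) := by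
  have h1 : Tendsto (fun x : ℝ => Real.log x ^ 2 / x) atTop (𝓝 0) := by
    have h2 := (isLittleO_log_rpow_rpow_atTop (s := 1) 2 one_pos).tendsto_div_nhds_zero
    refine h2.congr' ?_
    filter_upwards [eventually_gt_atTop 1] with x hx
    rw [Real.rpow_two, Real.rpow_one]
  have h2 : Tendsto (fun n => 2 * (L2 S n / pn S n)) atTop (𝓝 0) := by
    have := (h1.comp (pn_top hS)).const_mul 2
    rw [mul_zero] at this
    exact this
  refine tendsto_of_tendsto_of_tendsto_of_le_of_le' tendsto_const_nhds h2 ?_ ?_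
  · refine Eventually.of_forall fun n => ?_
    have h3 : pn S n ≤ pn S (n + 1) := (nth_mono hS).monotone (Nat.le_succ n)
    have h4 : (pn S n : ℝ) ≤ pn S (n + 1) := by exact_mod_cast h3
    exact div_nonneg (by linarith) (Nat.cast_nonneg _)
  · filter_upwards [up1 hS hup one_pos, (L2_top hS).eventually_gt_atTop 0, (pn_top hS).eventually_gt_atTop 0]
      with n hn hL hp
    unfold YY at hn
    rw [div_le_iff₀ hL] at hn
    rw [div_le_iff₀ hp, mul_assoc, div_mul_cancel₀ _ hp.ne']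
    linarith

lemma X_eq (hS : S.Infinite) (θ : ℝ) {n : ℕ} (hp : (0 : ℝ) < pn S n) :
    XX S θ n = YY S n * (((1 + ((pn S (n + 1) : ℝ) - pn S n) / pn S n) ^ θ - 1) / (((pn S (n + 1) : ℝ) - pn S n) / pn S n)) := by
  have h3 : pn S n < pn S (n + 1) := nth_mono hS (Nat.lt_succ_self n)
  have h4 : (pn S n : ℝ) < pn S (n + 1) := by exact_mod_cast h3
  unfold XX YY
  obtain ⟨p, hpe⟩ : ∃ p : ℝ, p = pn S n := ⟨_, rfl⟩
  obtain ⟨q, hq⟩ : ∃ q : ℝ, q = pn S (n + 1) := ⟨_, rfl⟩
  rw [← hpe] at hp h4 ⊢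
  rw [← hq] at h4 ⊢
  have hg : 0 < q - p := by linarith
  have e1 : 1 + (q - p) / p = q / p := by field_simp; ring
  rw [e1, Real.div_rpow (by linarith) hp.le]
  have e2 : p ^ (1 - θ) * (q ^ θ - p ^ θ) = p * (q ^ θ / p ^ θ - 1) := by
    rw [Real.rpow_sub hp, Real.rpow_one]
    have : p ^ θ ≠ 0 := (Real.rpow_pos_of_pos hp θ).ne'
    field_simp
  rw [e2]
  rcases eq_or_ne (L2 S n) 0 with h0 | h0
  · rw [h0, div_zero, div_zero, zero_mul]
  · have hgn : q - p ≠ 0 := hg.ne'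
    field_simp

lemma X_sub (hS : S.Infinite) (hup : Up S) (θ : ℝ) : Tendsto (fun n => XX S θ n - θ * YY S n) atTop (𝓝 0) := by
  have h0 := t_lim hS hup
  have h1 : Tendsto (fun n => ((pn S (n + 1) : ℝ) - pn S n) / pn S n) atTop (𝓝[>] 0) := by
    rw [tendsto_nhdsWithin_iff]
    refine ⟨h0, ?_⟩
    filter_upwards [(pn_top hS).eventually_gt_atTop 0] with n hp
    have h3 : pn S n < pn S (n + 1) := nth_mono hS (Nat.lt_succ_self n)
    have h4 : (pn S n : ℝ) < pn S (n + 1) := by exact_mod_cast h3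
    exact div_pos (by linarith) hp
  have h2 := (slope θ).comp h1
  have h3 : Tendsto (fun n => ((((1 + ((pn S (n + 1) : ℝ) - pn S n) / pn S n) ^ θ - 1) /
      (((pn S (n + 1) : ℝ) - pn S n) / pn S n)) - θ)) atTop (𝓝 0) := by
    have := h2.sub_const θ
    rw [sub_self] at this
    exact this
  have h4 : Tendsto (fun n => ((((1 + ((pn S (n + 1) : ℝ) - pn S n) / pn S n) ^ θ - 1) /
      (((pn S (n + 1) : ℝ) - pn S n) / pn S n)) - θ) * YY S n) atTop (𝓝 0) := by
    refine h3.zero_mul_isBoundedUnder_le ?_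
    refine ⟨2, ?_⟩
    rw [eventually_map]
    filter_upwards [up1 hS hup one_pos] with n hn
    simp only [Function.comp_apply, Real.norm_eq_abs]
    rw [abs_of_nonneg (Y_pos hS n)]
    linarith
  refine h4.congr' ?_
  filter_upwards [(pn_top hS).eventually_gt_atTop 0] with n hp
  rw [X_eq hS θ hp]
  ring

/-- **limit points** -/
theorem cluster (hS : S.Infinite) (hup : Up S) (hlow : Low S) {θ : ℝ} (hθ : 0 < θ) (y : ℝ) :
    MapClusterPt y atTop (XX S θ) ↔ 0 ≤ y ∧ y ≤ θ := by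
  have hd := X_sub hS hup θ
  rw [mapClusterPt_iff_frequently]
  constructor
  · intro h
    have hdev : ∀ η : ℝ, 0 < η → ∀ᶠ n in atTop, |XX S θ n - θ * YY S n| < η := by
      intro η hη
      have := (Metric.tendsto_atTop'.1 hd) η hη
      obtain ⟨N, hN⟩ := this
      filter_upwards [eventually_gt_atTop N] with n hn
      have := hN n hn
      rwa [Real.dist_eq, sub_zero] at this
    constructor
    · by_contra hcon
      push Not at hcon
      have h1 := h (Iio (y / 2)) (Iio_mem_nhds (by linarith))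
      have h2 := hdev (-(y / 2)) (by linarith)
      obtain ⟨n, hn1, hn2⟩ := (h1.and_eventually h2).exists
      have h3 := Y_pos hS n
      have h4 := (abs_lt.1 hn2).1
      have h5 : XX S θ n < y / 2 := hn1
      nlinarith
    · by_contra hcon
      push Not at hcon
      obtain ⟨η, hη, hη1⟩ : ∃ η : ℝ, 0 < η ∧ θ * (1 + η) + η < y := by
        refine ⟨(y - θ) / (2 * (θ + 1)), by apply div_pos <;> linarith, ?_⟩
        have h2 : (y - θ) / (2 * (θ + 1)) * (θ + 1) = (y - θ) / 2 := by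
          field_simp
        nlinarith
      have h1 := h (Ioi (θ * (1 + η) + η)) (Ioi_mem_nhds hη1)
      obtain ⟨n, hn1, hn2, hn3⟩ := (h1.and_eventually ((hdev η hη).and (up1 hS hup hη))).exists
      have h4 := (abs_lt.1 hn2).2
      have h5 : θ * (1 + η) + η < XX S θ n := hn1
      nlinarith
  · rintro ⟨h0, h1⟩ s hs
    obtain ⟨ε, hε, hball⟩ := Metric.mem_nhds_iff.1 hs
    -- a constant `c < 1` with `θ c` near `y`
    obtain ⟨c, hc0, hc1, hc2⟩ : ∃ c : ℝ, 0 ≤ c ∧ c < 1 ∧ |θ * c - y| < ε / 3 := by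
      obtain ⟨δ, hδ0, hδ1, hδ2⟩ : ∃ δ : ℝ, 0 < δ ∧ δ < 1 ∧ y * δ < ε / 3 := by
        refine ⟨min (1 / 2) (ε / (3 * (y + 1)) / 2), by positivity, ?_, ?_⟩
        · exact lt_of_le_of_lt (min_le_left _ _) (by norm_num)
        · have h2 : min (1 / 2) (ε / (3 * (y + 1)) / 2) ≤ ε / (3 * (y + 1)) / 2 := min_le_right _ _
          have h3 : (y + 1) * (ε / (3 * (y + 1)) / 2) = ε / 6 := by
            field_simp
            ring
          have h4 : 0 ≤ ε / (3 * (y + 1)) / 2 := by positivity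
          nlinarith
      refine ⟨y / θ * (1 - δ), ?_, ?_, ?_⟩
      · have : 0 ≤ y / θ := by positivity
        nlinarith
      · have h2 : y / θ ≤ 1 := by rwa [div_le_one hθ]
        have h3 : 0 ≤ y / θ := by positivity
        nlinarith
      · have e1 : θ * (y / θ * (1 - δ)) - y = -(y * δ) := by
          field_simp
          ring
        rw [e1, abs_neg, abs_of_nonneg (by positivity)]
        exact hδ2
    have h2 := low1 hS hlow hc0 hc1 (show 0 < ε / (3 * θ) by positivity)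
    have h3 : ∀ᶠ n in atTop, |XX S θ n - θ * YY S n| < ε / 3 := by
      have := (Metric.tendsto_atTop'.1 hd) (ε / 3) (by positivity)
      obtain ⟨N, hN⟩ := this
      filter_upwards [eventually_gt_atTop N] with n hn
      have := hN n hn
      rwa [Real.dist_eq, sub_zero] at this
    refine (h2.and_eventually h3).mono fun n hn => hball ?_
    rw [Metric.mem_ball, Real.dist_eq]
    have h4 : |θ * YY S n - θ * c| < ε / 3 := by
      rw [← mul_sub, abs_mul, abs_of_pos hθ]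
      have := hn.1
      calc θ * |YY S n - c| < θ * (ε / (3 * θ)) := by gcongr
        _ = ε / 3 := by field_simp
    calc |XX S θ n - y| = |(XX S θ n - θ * YY S n) + (θ * YY S n - θ * c) + (θ * c - y)| := by ring_nf
      _ ≤ |XX S θ n - θ * YY S n| + |θ * YY S n - θ * c| + |θ * c - y| := abs_add_three _ _ _
      _ < ε := by linarith [hn.2]

/-- **the differences tend to zero** -/
theorem dif_zero (hS : S.Infinite) (hup : Up S) {θ : ℝ} (_hθ : 0 < θ) (hθ1 : θ < 1) :
    Tendsto (fun n => (pn S (n + 1) : ℝ) ^ θ - (pn S n : ℝ) ^ θ) atTop (𝓝 0) := by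
  have h1 : Tendsto (fun x : ℝ => Real.log x ^ 2 / x ^ (1 - θ)) atTop (𝓝 0) := by
    have h2 := (isLittleO_log_rpow_rpow_atTop (s := 1 - θ) 2 (by linarith)).tendsto_div_nhds_zero
    refine h2.congr' ?_
    filter_upwards [eventually_gt_atTop 1] with x hx
    rw [Real.rpow_two]
  have h2 : Tendsto (fun n => L2 S n / (pn S n : ℝ) ^ (1 - θ)) atTop (𝓝 0) := h1.comp (pn_top hS)
  have h3 : Tendsto (fun n => (L2 S n / (pn S n : ℝ) ^ (1 - θ)) * XX S θ n) atTop (𝓝 0) := by
    refine h2.zero_mul_isBoundedUnder_le ?_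
    refine ⟨1 + |θ| * 2, ?_⟩
    rw [eventually_map]
    have hd : ∀ᶠ n in atTop, |XX S θ n - θ * YY S n| < 1 := by
      have := (Metric.tendsto_atTop'.1 (X_sub hS hup θ)) 1 one_pos
      obtain ⟨N, hN⟩ := this
      filter_upwards [eventually_gt_atTop N] with n hn
      have := hN n hn
      rwa [Real.dist_eq, sub_zero] at this
    filter_upwards [up1 hS hup one_pos, hd] with n hn hn2
    simp only [Function.comp_apply, Real.norm_eq_abs]
    have h4 : |XX S θ n| ≤ |XX S θ n - θ * YY S n| + |θ * YY S n| := by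
      calc |XX S θ n| = |(XX S θ n - θ * YY S n) + θ * YY S n| := by ring_nf
        _ ≤ _ := abs_add_le _ _
    have h5 : |θ * YY S n| ≤ |θ| * 2 := by
      rw [abs_mul, abs_of_nonneg (Y_pos hS n)]
      exact mul_le_mul_of_nonneg_left (by linarith) (abs_nonneg _)
    linarith
  refine h3.congr' ?_
  filter_upwards [(pn_top hS).eventually_gt_atTop 0, (L2_top hS).eventually_gt_atTop 0] with n hp hL
  unfold XX
  have h4 : (pn S n : ℝ) ^ (1 - θ) ≠ 0 := (Real.rpow_pos_of_pos hp _).ne'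
  field_simp

end Pool.Agent.N886.SM
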