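import Mathlib
import Pool.Agent.N740.HK.Short
import Pool.Agent.N886.SM.Thr

/-!
# The chosen integers in the Oppermann intervals (project SM of helper740)
-/

set_option autoImplicit false
set_option linter.unusedSectionVars false

open MeasureTheory Filter Set
open scoped Topology

namespace Pool.Agent.N886.SM

open Pool.Agent.N740.HK Pool.Agent.R528.RM

variable {Ω : Type} {m0 : MeasurableSpace Ω} {μ : Measure Ω} [IsProbabilityMeasure μ]
  {ℱ : Filtration ℕ m0} {A : ℕ → Set Ω}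

/-- the number of the elements of `S` in `[a, b]` -/
noncomputable def num (S : Set ℕ) (a b : ℕ) : ℕ := {q | q ∈ S ∧ a ≤ q ∧ q ≤ b}.ncard

lemma num_cnt (a H : ℕ) (ω : Ω) : num {k | ω ∈ A k} (a + 1) (a + H) = cnt A a H ω := by
  classical
  unfold num cnt
  rw [Finset.sum_boole, Nat.cast_id]
  have e : {q | q ∈ {k | ω ∈ A k} ∧ a + 1 ≤ q ∧ q ≤ a + H} =
      (((Finset.range H).filter (fun r => ω ∈ A (a + 1 + r))).image (fun r => a + 1 + r) : Finset ℕ) := by
    ext q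
    rw [Finset.mem_coe, Finset.mem_image]
    simp only [Finset.mem_filter, Finset.mem_range, mem_ofPred_eq]
    constructor
    · rintro ⟨h1, h2, h3⟩
      refine ⟨q - (a + 1), ⟨by omega, ?_⟩, by omega⟩
      rwa [show a + 1 + (q - (a + 1)) = q by omega]
    · rintro ⟨r, ⟨h1, h2⟩, rfl⟩
      exact ⟨h2, by omega, by omega⟩
  rw [e, ncard_coe_finset, Finset.card_image_of_injective _ (fun x y h => by simpa using h)]

/-- short intervals for all `ε` at once -/
lemma short_all (hA : ∀ n, MeasurableSet[ℱ n] (A n))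
    (hd : ∀ᵐ ω ∂μ, Tendsto (fun n : ℕ => dens μ ℱ A n ω * Real.log n) atTop (𝓝 1)) :
    ∀ᵐ ω ∂μ, ∀ ε : ℝ, 0 < ε → ∃ K : ℝ, 0 < K ∧ ∀ᶠ x : ℕ in atTop, ∀ H : ℕ,
      K * Real.log x ^ 2 ≤ H → H ≤ x →
        |(cnt A x H ω : ℝ) - H / Real.log x| ≤ ε * (H / Real.log x) := by
  have h1 : ∀ i : ℕ, ∃ K : ℝ, 0 < K ∧ ∀ᵐ ω ∂μ, ∀ᶠ x : ℕ in atTop, ∀ H : ℕ,
      K * Real.log x ^ 2 ≤ H → H ≤ x →
        |(cnt A x H ω : ℝ) - H / Real.log x| ≤ (1 / ((i : ℝ) + 1)) * (H / Real.log x) :=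
    fun i => short hA hd (by positivity)
  choose K hK0 hK using h1
  filter_upwards [ae_all_iff.2 hK] with ω hω ε hε
  obtain ⟨i, hi⟩ := exists_nat_gt (1 / ε)
  refine ⟨K i, hK0 i, ?_⟩
  filter_upwards [hω i, log_top.eventually_gt_atTop 0] with x hx hx0 H h1 h2
  refine (hx H h1 h2).trans ?_
  have h3 : 1 / ((i : ℝ) + 1) ≤ ε := by
    rw [div_le_iff₀ (by positivity)]
    rw [div_lt_iff₀ hε] at hi
    nlinarith
  exact mul_le_mul_of_nonneg_right h3 (by positivity)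

lemma w_lim {x : ℕ → ℕ} (hx : ∀ᶠ n : ℕ in atTop, (n : ℝ) ^ 2 / 2 ≤ x n ∧ x n ≤ n ^ 2) :
    Tendsto (fun n : ℕ => (((n + 1 : ℕ) : ℝ) / Real.log (x n)) * (2 * Real.log n) / n) atTop (𝓝 1) := by
  have h1 : Tendsto (fun n : ℕ => ((n + 1 : ℕ) : ℝ) / n) atTop (𝓝 1) := by
    have h2 : Tendsto (fun n : ℕ => 1 + (1 : ℝ) / n) atTop (𝓝 (1 + 0)) :=
      tendsto_const_nhds.add tendsto_one_div_atTop_nhds_zero_nat
    rw [add_zero] at h2
    refine h2.congr' ?_
    filter_upwards [eventually_gt_atTop 0] with n hn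
    have hn' : (0 : ℝ) < n := by exact_mod_cast hn
    push_cast
    field_simp
  have h2 : Tendsto (fun n : ℕ => Real.log (x n) / (2 * Real.log n)) atTop (𝓝 1) := by
    have h3 : Tendsto (fun n : ℕ => 1 - Real.log 2 / (2 * Real.log n)) atTop (𝓝 (1 - 0)) :=
      tendsto_const_nhds.sub (tendsto_const_nhds.div_atTop (log_top.const_mul_atTop (by norm_num : (0 : ℝ) < 2)))
    rw [sub_zero] at h3
    refine tendsto_of_tendsto_of_tendsto_of_le_of_le' h3 tendsto_const_nhds ?_ ?_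
    · filter_upwards [hx, log_top.eventually_gt_atTop 0, eventually_gt_atTop 0] with n hn h4 h5
      have hn' : (0 : ℝ) < n := by exact_mod_cast h5
      have h6 : Real.log ((n : ℝ) ^ 2 / 2) ≤ Real.log (x n) := Real.log_le_log (by positivity) hn.1
      rw [Real.log_div (by positivity) (by norm_num), Real.log_pow] at h6
      push_cast at h6
      rw [le_div_iff₀ (by positivity)]
      have e : (1 - Real.log 2 / (2 * Real.log n)) * (2 * Real.log n) = 2 * Real.log n - Real.log 2 := by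
        field_simp
      rw [e]
      exact h6
    · filter_upwards [hx, log_top.eventually_gt_atTop 0, eventually_gt_atTop 0] with n hn h4 h5
      have hn' : (0 : ℝ) < n := by exact_mod_cast h5
      have hx0 : (0 : ℝ) < x n := lt_of_lt_of_le (by positivity) hn.1
      have hx2 : (x n : ℝ) ≤ (n : ℝ) ^ 2 := by exact_mod_cast hn.2
      have h6 : Real.log (x n) ≤ Real.log ((n : ℝ) ^ 2) := Real.log_le_log hx0 hx2
      rw [Real.log_pow] at h6
      push_cast at h6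
      rw [div_le_one (by positivity)]
      exact h6
  have h3 := h1.div h2 one_ne_zero
  rw [div_one] at h3
  refine h3.congr fun n => ?_
  simp only [Pi.div_apply]
  rw [div_div_eq_mul_div]
  ring

/-- the law of the numbers in `(x, x + n + 1]`, `x` near `n²` -/
lemma cnt_lim {ω : Ω} (h : ∀ ε : ℝ, 0 < ε → ∃ K : ℝ, 0 < K ∧ ∀ᶠ x : ℕ in atTop, ∀ H : ℕ,
      K * Real.log x ^ 2 ≤ H → H ≤ x →
        |(cnt A x H ω : ℝ) - H / Real.log x| ≤ ε * (H / Real.log x))
    {x : ℕ → ℕ} (hx : ∀ᶠ n : ℕ in atTop, (n : ℝ) ^ 2 / 2 ≤ x n ∧ x n ≤ n ^ 2) :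
    Tendsto (fun n : ℕ => (cnt A (x n) (n + 1) ω : ℝ) * (2 * Real.log n) / n) atTop (𝓝 1) := by
  have hw := w_lim hx
  have hxt : Tendsto x atTop atTop := by
    refine tendsto_atTop_mono' atTop ?_ tendsto_id
    filter_upwards [hx, eventually_ge_atTop 2] with n hn hn2
    have h2 : (2 : ℝ) ≤ n := by exact_mod_cast hn2
    have h3 : (n : ℝ) ≤ x n := by nlinarith [hn.1]
    exact_mod_cast h3
  rw [Metric.tendsto_atTop']
  intro ε hε
  obtain ⟨K, hK0, hK⟩ := h (ε / 4) (by positivity)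
  have h1 : ∀ᶠ n : ℕ in atTop, K * (4 * Real.log n ^ 2) ≤ n := by
    have h2 := (isLittleO_log_rpow_rpow_atTop (s := 1) 2 one_pos).def (show (0 : ℝ) < 1 / (4 * K) by positivity)
    filter_upwards [tendsto_natCast_atTop_atTop.eventually h2, eventually_gt_atTop 1] with n hn hn1
    have hn1' : (1 : ℝ) < n := by exact_mod_cast hn1
    have hlog : 0 ≤ Real.log (n : ℝ) := Real.log_nonneg hn1'.le
    rw [Real.norm_of_nonneg (by positivity), Real.norm_of_nonneg (by positivity), Real.rpow_two,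
      Real.rpow_one] at hn
    have e : 1 / (4 * K) * (n : ℝ) = n / (4 * K) := by ring
    rw [e, le_div_iff₀ (by positivity)] at hn
    linarith
  have hwe : ∀ᶠ n : ℕ in atTop, |((((n + 1 : ℕ) : ℝ) / Real.log (x n)) * (2 * Real.log n) / n) - 1| < min (ε / 4) 1 := by
    have := (Metric.tendsto_atTop'.1 hw) (min (ε / 4) 1) (by positivity)
    obtain ⟨N, hN⟩ := this
    filter_upwards [eventually_gt_atTop N] with n hn
    have := hN n hn
    rwa [Real.dist_eq] at this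
  have hall := (hwe.and (hxt.eventually hK)).and ((h1.and hx).and (eventually_ge_atTop 4))
  obtain ⟨N, hN⟩ := eventually_atTop.1 hall
  refine ⟨N, fun n hn => ?_⟩
  obtain ⟨⟨g1, g2⟩, ⟨g3, g4⟩, g5⟩ := hN n hn.le
  have hn4 : (4 : ℝ) ≤ n := by exact_mod_cast g5
  have hx0 : (0 : ℝ) < x n := by nlinarith [g4.1]
  have hx1 : (1 : ℝ) < x n := by nlinarith [g4.1]
  have hx2 : (x n : ℝ) ≤ (n : ℝ) ^ 2 := by exact_mod_cast g4.2
  have hlx0 : 0 < Real.log (x n : ℝ) := Real.log_pos hx1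
  have hlx : Real.log (x n : ℝ) ≤ 2 * Real.log n := by
    have h6 : Real.log (x n) ≤ Real.log ((n : ℝ) ^ 2) := Real.log_le_log hx0 hx2
    rw [Real.log_pow] at h6
    push_cast at h6
    exact h6
  have g6 := g2 (n + 1) (by
    have h6 : Real.log (x n : ℝ) ^ 2 ≤ 4 * Real.log n ^ 2 := by nlinarith
    push_cast
    nlinarith) (by
    have h6 : ((n + 1 : ℕ) : ℝ) ≤ x n := by
      push_cast
      nlinarith [g4.1]
    exact_mod_cast h6)
  obtain ⟨c, hc⟩ : ∃ c : ℝ, c = (cnt A (x n) (n + 1) ω : ℝ) := ⟨_, rfl⟩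
  obtain ⟨u, hu⟩ : ∃ u : ℝ, u = ((n + 1 : ℕ) : ℝ) / Real.log (x n) := ⟨_, rfl⟩
  obtain ⟨b, hb⟩ : ∃ b : ℝ, b = 2 * Real.log n / n := ⟨_, rfl⟩
  have hln : 0 < Real.log (n : ℝ) := Real.log_pos (by linarith)
  have hb0 : 0 < b := by rw [hb]; positivity
  rw [mul_div_assoc, ← hb, ← hu] at g1
  rw [← hc, ← hu] at g6
  rw [Real.dist_eq, mul_div_assoc, ← hb, ← hc]
  have g7 : |c * b - u * b| ≤ ε / 4 * (u * b) := by
    rw [← sub_mul, abs_mul, abs_of_pos hb0, ← mul_assoc]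
    exact mul_le_mul_of_nonneg_right g6 hb0.le
  have g8 : u * b < 2 := by
    have := (abs_lt.1 g1).2
    have h9 := min_le_right (ε / 4) (1 : ℝ)
    linarith
  have g9 : |u * b - 1| < ε / 4 := lt_of_lt_of_le g1 (min_le_left _ _)
  calc |c * b - 1| = |(c * b - u * b) + (u * b - 1)| := by ring_nf
    _ ≤ |c * b - u * b| + |u * b - 1| := abs_add_le _ _
    _ < ε := by nlinarith

/-- **the Oppermann intervals** -/
theorem opp (hA : ∀ n, MeasurableSet[ℱ n] (A n))
    (hd : ∀ᵐ ω ∂μ, Tendsto (fun n : ℕ => dens μ ℱ A n ω * Real.log n) atTop (𝓝 1)) :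
    ∀ᵐ ω ∂μ,
      Tendsto (fun n : ℕ => (num {k | ω ∈ A k} (n ^ 2 - n) (n ^ 2) : ℝ) * (2 * Real.log n) / n) atTop (𝓝 1) ∧
      Tendsto (fun n : ℕ => (num {k | ω ∈ A k} (n ^ 2) (n ^ 2 + n) : ℝ) * (2 * Real.log n) / n) atTop (𝓝 1) := by
  filter_upwards [short_all hA hd] with ω hω
  constructor
  · have h1 := cnt_lim hω (x := fun n => n ^ 2 - n - 1) (by
      filter_upwards [eventually_ge_atTop 4] with n hn
      have h2 : n + 1 ≤ n ^ 2 := by nlinarith
      refine ⟨?_, by omega⟩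
      have h3 : ((n ^ 2 - n - 1 : ℕ) : ℝ) = (n : ℝ) ^ 2 - n - 1 := by
        rw [Nat.sub_sub, Nat.cast_sub h2]
        push_cast
        ring
      rw [h3]
      have h4 : (4 : ℝ) ≤ n := by exact_mod_cast hn
      nlinarith)
    refine h1.congr' ?_
    filter_upwards [eventually_ge_atTop 2] with n hn
    have h2 : n + 1 ≤ n ^ 2 := by nlinarith
    rw [← num_cnt]
    congr 4
    · omega
    · omega
  · have h1 := cnt_lim hω (x := fun n => n ^ 2 - 1) (by
      filter_upwards [eventually_ge_atTop 2] with n hn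
      refine ⟨?_, by omega⟩
      have h3 : ((n ^ 2 - 1 : ℕ) : ℝ) = (n : ℝ) ^ 2 - 1 := by
        rw [Nat.cast_sub (by nlinarith)]
        push_cast
        ring
      rw [h3]
      have h4 : (2 : ℝ) ≤ n := by exact_mod_cast hn
      nlinarith)
    refine h1.congr' ?_
    filter_upwards [eventually_ge_atTop 2] with n hn
    have h2 : 1 ≤ n ^ 2 := by nlinarith
    rw [← num_cnt]
    congr 4
    · omega
    · omega

/-- both intervals contain `k` chosen integers, and the threshold -/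
theorem opp_thr {ω : Ω}
    (h1 : Tendsto (fun n : ℕ => (num {k | ω ∈ A k} (n ^ 2 - n) (n ^ 2) : ℝ) * (2 * Real.log n) / n) atTop (𝓝 1))
    (h2 : Tendsto (fun n : ℕ => (num {k | ω ∈ A k} (n ^ 2) (n ^ 2 + n) : ℝ) * (2 * Real.log n) / n) atTop (𝓝 1)) :
    (∀ k : ℕ, ∃ N : ℕ, ∀ n, N < n →
      k ≤ num {k | ω ∈ A k} (n ^ 2 - n) (n ^ 2) ∧ k ≤ num {k | ω ∈ A k} (n ^ 2) (n ^ 2 + n)) ∧
    Tendsto (fun k : ℕ => ((sInf {N : ℕ | ∀ n, N < n →
      k ≤ num {k | ω ∈ A k} (n ^ 2 - n) (n ^ 2) ∧ k ≤ num {k | ω ∈ A k} (n ^ 2) (n ^ 2 + n)} : ℕ) : ℝ) /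
      (2 * k * Real.log k)) atTop (𝓝 1) := by
  have h3 : Tendsto (fun n : ℕ => ((min (num {k | ω ∈ A k} (n ^ 2 - n) (n ^ 2))
      (num {k | ω ∈ A k} (n ^ 2) (n ^ 2 + n)) : ℕ) : ℝ) * (2 * Real.log n) / n) atTop (𝓝 1) := by
    have h4 := h1.min h2
    rw [min_self] at h4
    refine h4.congr fun n => ?_
    have hb : 0 ≤ 2 * (Real.log (n : ℝ) / n) := by
      have := Real.log_natCast_nonneg n
      positivity
    simp only [mul_div_assoc]
    rw [Nat.cast_min, min_mul_of_nonneg _ _ hb]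
  have h5 := thr h3
  simp only [le_min_iff] at h5
  exact h5

end Pool.Agent.N886.SM
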